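import Pool.Agent.Q164.Pav.Roots
import Pool.Agent.Q164.Pav.Count

/-!
# The reliability roots of a paving matroid lie in the closed unit disk
-/

set_option autoImplicit false

namespace Pool.Agent.Results.MP_1ae31d_co.PavingUnitDisk

open Finset Pool.Agent.Q164.Pav

/-- The number of independent sets of size `k`. -/
noncomputable def numIndep {α : Type*} (M : Matroid α) (k : ℕ) : ℕ :=
  {I : Set α | M.Indep I ∧ I.ncard = k}.ncard

/-- The reliability polynomial of `M` as a function. -/
noncomputable def Rel {α : Type*} (M : Matroid α) (q : ℂ) : ℂ :=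
  ∑ k ∈ range (M.eRank.toNat + 1), (numIndep M k : ℂ) * q ^ k * (1 - q) ^ (M.E.ncard - k)

/-- `M` is paving: every circuit has at least `r` elements, where `r` is the rank of `M`. -/
def IsPaving {α : Type*} (M : Matroid α) : Prop := ∀ C, M.IsCircuit C → M.eRank ≤ C.encard

/-! ### Polynomial identities -/

lemma sum_B (q : ℂ) (s : ℕ) (N : ℕ) :
    ∑ k ∈ range (s + 1), ((N + 1 + (s + 1)).choose k : ℂ) * q ^ k * (1 - q) ^ (N + 1 + (s + 1) - k) =
      ∑ k ∈ range (s + 1), ((N + (s + 1)).choose k : ℂ) * q ^ k * (1 - q) ^ (N + (s + 1) - k) -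
        ((N + (s + 1)).choose s : ℂ) * q ^ (s + 1) * (1 - q) ^ (N + 1) := by
  rw [Finset.sum_range_succ' (fun k => ((N + 1 + (s + 1)).choose k : ℂ) * q ^ k *
    (1 - q) ^ (N + 1 + (s + 1) - k))]
  have h1 : ∑ k ∈ range s, ((N + 1 + (s + 1)).choose (k + 1) : ℂ) * q ^ (k + 1) *
      (1 - q) ^ (N + 1 + (s + 1) - (k + 1)) =
      q * ∑ k ∈ range s, ((N + (s + 1)).choose k : ℂ) * q ^ k * (1 - q) ^ (N + (s + 1) - k) +
      (1 - q) * ∑ k ∈ range s, ((N + (s + 1)).choose (k + 1) : ℂ) * q ^ (k + 1) *
        (1 - q) ^ (N + (s + 1) - (k + 1)) := by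
    rw [Finset.mul_sum, Finset.mul_sum, ← Finset.sum_add_distrib]
    refine Finset.sum_congr rfl fun k hk => ?_
    rw [Finset.mem_range] at hk
    have e1 : N + 1 + (s + 1) = (N + (s + 1)) + 1 := by ring
    rw [e1, Nat.choose_succ_succ]
    have e2 : N + (s + 1) + 1 - (k + 1) = N + (s + 1) - k := by omega
    have e3 : N + (s + 1) - k = N + (s + 1) - (k + 1) + 1 := by omega
    rw [e2, e3, pow_succ (1 - q)]
    push_cast
    ring
  rw [h1]
  have h2 := Finset.sum_range_succ (fun k => ((N + (s + 1)).choose k : ℂ) * q ^ k *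
    (1 - q) ^ (N + (s + 1) - k)) s
  have h3 := Finset.sum_range_succ' (fun k => ((N + (s + 1)).choose k : ℂ) * q ^ k *
    (1 - q) ^ (N + (s + 1) - k)) s
  have e4 : N + (s + 1) - s = N + 1 := by omega
  rw [e4] at h2
  simp only [Nat.choose_zero_right, pow_zero, Nat.sub_zero] at h3 ⊢
  have e5 : (1 - q) ^ (N + 1 + (s + 1)) = (1 - q) * (1 - q) ^ (N + (s + 1)) := by
    rw [← pow_succ']
    congr 1
    ring
  rw [e5]
  linear_combination (-q) * h2 + (-(1 - q)) * h3

lemma sum_A (q : ℂ) (N : ℕ) (s : ℕ) :
    (1 - q) * ∑ i ∈ range (s + 1), ((N + 1 + i).choose i : ℂ) * q ^ i =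
      ∑ i ∈ range (s + 1), ((N + i).choose i : ℂ) * q ^ i - ((N + 1 + s).choose s : ℂ) * q ^ (s + 1) := by
  induction s with
  | zero => simp
  | succ s ih =>
    rw [Finset.sum_range_succ, mul_add, ih, Finset.sum_range_succ _ (s + 1)]
    have h : (N + 1 + (s + 1)).choose (s + 1) = (N + 1 + s).choose s + (N + (s + 1)).choose (s + 1) := by
      rw [show N + 1 + (s + 1) = (N + 1 + s) + 1 by ring, Nat.choose_succ_succ]
      congr 2
      ring
    rw [h]
    push_cast
    ring

lemma partial_sum (q : ℂ) (s : ℕ) (N : ℕ) :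
    ∑ k ∈ range (s + 1), ((N + (s + 1)).choose k : ℂ) * q ^ k * (1 - q) ^ (N + (s + 1) - k) =
      (1 - q) ^ (N + 1) * ∑ i ∈ range (s + 1), ((N + i).choose i : ℂ) * q ^ i := by
  induction N with
  | zero =>
    have h1 : ∑ k ∈ range (s + 1), ((0 + (s + 1)).choose k : ℂ) * q ^ k * (1 - q) ^ (0 + (s + 1) - k) =
        1 - q ^ (s + 1) := by
      have h2 := add_pow q (1 - q) (s + 1)
      rw [add_sub_cancel, one_pow, Finset.sum_range_succ] at h2
      simp only [Nat.choose_self, Nat.sub_self, pow_zero, mul_one, Nat.cast_one] at h2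
      have h3 : ∑ k ∈ range (s + 1), ((0 + (s + 1)).choose k : ℂ) * q ^ k * (1 - q) ^ (0 + (s + 1) - k) =
          ∑ x ∈ range (s + 1), q ^ x * (1 - q) ^ (s + 1 - x) * ((s + 1).choose x : ℂ) := by
        refine Finset.sum_congr rfl fun k _ => ?_
        rw [zero_add]
        ring
      rw [h3]
      linear_combination -h2
    rw [h1]
    have h2 : ∑ i ∈ range (s + 1), ((0 + i).choose i : ℂ) * q ^ i = ∑ i ∈ range (s + 1), q ^ i := by
      refine Finset.sum_congr rfl fun i _ => ?_
      simp
    rw [h2, zero_add, pow_one, mul_neg_geom_sum]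
  | succ N ih =>
    rw [sum_B, ih]
    have h := sum_A q N s
    have e : (N + (s + 1)).choose s = (N + 1 + s).choose s := by
      congr 1
      ring
    rw [e, pow_succ (1 - q) (N + 1), mul_assoc ((1 - q) ^ (N + 1)), h]
    ring

lemma geom_root (z : ℂ) (n : ℕ) (h : ∑ i ∈ range (n + 1), z ^ i = 0) : ‖z‖ ≤ 1 := by
  have h1 := mul_neg_geom_sum z (n + 1)
  rw [h, mul_zero] at h1
  have h2 : z ^ (n + 1) = 1 := by linear_combination h1
  have h3 : ‖z‖ ^ (n + 1) = 1 := by rw [← norm_pow, h2, norm_one]
  by_contra hcon
  push Not at hcon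
  have := one_lt_pow₀ hcon (n := n + 1) (by omega)
  linarith

/-! ### The matroid -/

section matroid
variable {α : Type*} (M : Matroid α) [M.Finite]

open scoped Classical in
lemma numIndep_eq (k : ℕ) : numIndep M k =
    ((M.ground_finite.toFinset.powersetCard k).filter fun S : Finset α => M.Indep (S : Set α)).card := by
  unfold numIndep
  have h : {I : Set α | M.Indep I ∧ I.ncard = k} = (fun S : Finset α => (S : Set α)) ''
      (((M.ground_finite.toFinset.powersetCard k).filter fun S : Finset α => M.Indep (S : Set α) :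
        Finset (Finset α)) : Set (Finset α)) := by
    ext I
    rw [Set.mem_image]
    constructor
    · rintro ⟨h1, h2⟩
      have hfin : I.Finite := M.ground_finite.subset h1.subset_ground
      refine ⟨hfin.toFinset, ?_, by simp⟩
      rw [Finset.mem_coe, Finset.mem_filter, Finset.mem_powersetCard]
      refine ⟨⟨?_, ?_⟩, ?_⟩
      · intro x hx
        rw [Set.Finite.mem_toFinset] at hx ⊢
        exact h1.subset_ground hx
      · rw [← h2, Set.ncard_eq_toFinset_card I hfin]
      · simpa using h1
    · rintro ⟨S, hS, rfl⟩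
      rw [Finset.mem_coe, Finset.mem_filter, Finset.mem_powersetCard] at hS
      exact ⟨hS.2, by rw [Set.ncard_coe_finset]; exact hS.1.2⟩
  rw [h, Set.ncard_image_of_injective _ Finset.coe_injective, Set.ncard_coe_finset]

lemma eRank_coe : (M.eRank.toNat : ℕ∞) = M.eRank := by
  obtain ⟨B, hB⟩ := M.exists_isBase
  have hfin : B.Finite := M.ground_finite.subset hB.subset_ground
  rw [← hB.encard_eq_eRank]
  exact ENat.natCast_toNat (Set.encard_ne_top_iff.2 hfin)

lemma card_le (S : Finset α) (hS : M.Indep (S : Set α)) : S.card ≤ M.eRank.toNat := by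
  have h := hS.encard_le_eRank
  rw [← eRank_coe M, Set.encard_coe_eq_coe_finsetCard] at h
  exact_mod_cast h

open scoped Classical in
lemma pavSys (hM : IsPaving M) :
    PavSys M.ground_finite.toFinset M.eRank.toNat (fun S => M.Indep (S : Set α)) := by
  constructor
  · intro S hS hc
    by_contra hcon
    have hSE : (S : Set α) ⊆ M.E := by
      intro x hx
      have := hS (Finset.mem_coe.1 hx)
      rwa [Set.Finite.mem_toFinset] at this
    have hdep : M.Dep (S : Set α) := ⟨hcon, hSE⟩
    obtain ⟨C, hCS, hC⟩ := hdep.exists_isCircuit_subset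
    have h1 := hM C hC
    have h2 := Set.encard_le_encard hCS
    rw [Set.encard_coe_eq_coe_finsetCard] at h2
    have h3 := h1.trans h2
    rw [← eRank_coe M] at h3
    have : M.eRank.toNat ≤ S.card := by exact_mod_cast h3
    omega
  · intro S B hS hB hc
    obtain ⟨x, hx, hxS, hxi⟩ := hS.augment_finset hB hc
    exact ⟨x, hx, hxS, by rw [Finset.coe_insert]; exact hxi⟩

lemma sp_ground : Sp M.eRank.toNat (fun S => M.Indep (S : Set α)) M.ground_finite.toFinset := by
  obtain ⟨B, hB⟩ := M.exists_isBase
  have hfin : B.Finite := M.ground_finite.subset hB.subset_ground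
  refine ⟨hfin.toFinset, ?_, ?_, ?_⟩
  · intro x hx
    rw [Set.Finite.mem_toFinset] at hx ⊢
    exact hB.subset_ground hx
  · have h := hB.encard_eq_eRank
    rw [← eRank_coe M, hfin.encard_eq_coe_toFinset_card] at h
    exact_mod_cast h
  · simpa using hB.indep

end matroid

/-- **The reliability roots of a paving matroid lie in the closed unit disk.** -/
theorem result {α : Type*} (M : Matroid α) [M.Finite] (hM : IsPaving M) (z : ℂ)
    (hz : Rel M z = 0) : ‖z‖ ≤ 1 := by
  classical
  set E := M.ground_finite.toFinset with hE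
  set r := M.eRank.toNat with hr
  have hsys := pavSys M hM
  have hsp := sp_ground M
  rw [← hE, ← hr] at hsys hsp
  set Ind : Finset α → Prop := fun S => M.Indep (S : Set α) with hInd
  have hm : M.E.ncard = E.card := Set.ncard_eq_toFinset_card _ _
  have hrm : r ≤ E.card := by
    obtain ⟨B, hB, hBc, _⟩ := hsp
    rw [← hBc]
    exact Finset.card_le_card hB
  -- the numbers of independent sets
  have hsmall : ∀ k < r, numIndep M k = E.card.choose k := by
    intro k hk
    rw [numIndep_eq, ← hE, ← Finset.card_powersetCard]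
    congr 1
    apply Finset.filter_true_of_mem
    intro S hS
    rw [Finset.mem_powersetCard] at hS
    exact hsys.small S hS.1 (by omega)
  have htop : numIndep M r + (nbs r Ind E).card = E.card.choose r := by
    rw [numIndep_eq, ← hE, ← Finset.card_powersetCard]
    unfold nbs
    exact Finset.card_filter_add_card_filter_not _
  set f := numIndep M r with hf
  have hRel : Rel M z = ∑ k ∈ range r, (E.card.choose k : ℂ) * z ^ k * (1 - z) ^ (E.card - k) +
      (f : ℂ) * z ^ r * (1 - z) ^ (E.card - r) := by
    unfold Rel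
    rw [← hr, Finset.sum_range_succ, hm]
    congr 1
    refine Finset.sum_congr rfl fun k hk => ?_
    rw [Finset.mem_range] at hk
    rw [hsmall k hk]
  rw [hRel] at hz
  by_contra hcon
  push Not at hcon
  have hz1 : 1 - z ≠ 0 := by
    intro h0
    have : z = 1 := by linear_combination -h0
    rw [this, norm_one] at hcon
    exact lt_irrefl _ hcon
  -- rank zero
  rcases Nat.eq_zero_or_pos r with hr0 | hr0
  · rw [hr0] at hz
    simp only [Finset.range_zero, Finset.sum_empty, pow_zero, mul_one, zero_add, Nat.sub_zero] at hz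
    have hf1 : f = 1 := by
      have hfr : f = numIndep M 0 := by rw [hf, hr0]
      rw [hfr, numIndep_eq, Finset.powersetCard_zero]
      rw [Finset.filter_true_of_mem]
      · simp
      · intro S hS
        rw [Finset.mem_singleton] at hS
        rw [hS]
        simp
    rw [hf1, Nat.cast_one, one_mul] at hz
    exact pow_ne_zero _ hz1 hz
  obtain ⟨s, hs⟩ : ∃ s, r = s + 1 := ⟨r - 1, by omega⟩
  -- coloops
  have hcoloop : ¬ CL r Ind E → f = (E.card - 1).choose s ∧ 1 ≤ E.card := by
    intro hcl
    unfold CL at hcl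
    push Not at hcl
    obtain ⟨e, he, hne⟩ := hcl
    have hcard : 1 ≤ E.card := Finset.card_pos.2 ⟨e, he⟩
    refine ⟨?_, hcard⟩
    have hnb : nbs r Ind E = (E.erase e).powersetCard r := by
      ext D
      rw [mem_nbs, Finset.mem_powersetCard]
      constructor
      · rintro ⟨h1, h2, h3⟩
        refine ⟨?_, h2⟩
        rw [Finset.subset_erase]
        refine ⟨h1, fun heD => ?_⟩
        have hmem : D ∈ nbs r Ind E := (mem_nbs E D).2 ⟨h1, h2, h3⟩
        have hmg := hsys.merge (X := E.erase e) (Y := D) (Finset.erase_subset _ _) hne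
          (not_sp_of_mem_nbs hmem) ?_ (by omega)
        · apply hmg
          apply hsp.mono
          intro x hx
          rw [Finset.mem_union, Finset.mem_erase]
          by_cases hxe : x = e
          · right; rw [hxe]; exact heD
          · left; exact ⟨hxe, hx⟩
        · have h5 : D.erase e ⊆ E.erase e ∩ D := by
            intro x hx
            rw [Finset.mem_erase] at hx
            rw [Finset.mem_inter, Finset.mem_erase]
            exact ⟨⟨hx.1, h1 hx.2⟩, hx.2⟩
          have h6 := Finset.card_le_card h5
          rw [Finset.card_erase_of_mem heD, h2] at h6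
          omega
      · rintro ⟨h1, h2⟩
        exact ⟨h1.trans (Finset.erase_subset _ _), h2, fun h3 => hne ⟨D, h1, h2, h3⟩⟩
    rw [hnb, Finset.card_powersetCard, Finset.card_erase_of_mem he] at htop
    obtain ⟨m', hm'⟩ : ∃ m', E.card = m' + 1 := ⟨E.card - 1, by omega⟩
    rw [hm', hs] at htop
    simp only [Nat.add_sub_cancel] at htop
    rw [Nat.choose_succ_succ'] at htop
    rw [hm', Nat.add_sub_cancel]
    omega
  obtain ⟨N, hN⟩ : ∃ N, E.card = N + r := ⟨E.card - r, by omega⟩
  have hpart := partial_sum z s N
  rw [← hs] at hpart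
  rw [hN, hpart, Nat.add_sub_cancel] at hz
  rcases (by omega : N = 0 ∨ N = 1 ∨ 2 ≤ N) with rfl | rfl | hN2
  · -- free matroid
    have hf1 : f = 1 := by
      obtain ⟨B, hB, hBc, hBi⟩ := hsp
      have hBE : B = E := Finset.eq_of_subset_of_card_le hB (by omega)
      rw [hBE] at hBi
      rw [hf, numIndep_eq, ← hE]
      have : E.powersetCard r = {E} := by
        have h9 : r = E.card := by omega
        rw [h9, Finset.powersetCard_self]
      rw [this, Finset.filter_true_of_mem, Finset.card_singleton]
      intro S hS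
      rw [Finset.mem_singleton] at hS
      rw [hS]
      exact hBi
    rw [hf1] at hz
    have h2 : ∑ i ∈ range r, ((0 + i).choose i : ℂ) * z ^ i = ∑ i ∈ range r, z ^ i := by
      refine Finset.sum_congr rfl fun i _ => ?_
      simp
    rw [h2, zero_add, pow_one, mul_neg_geom_sum] at hz
    simp at hz
  · -- corank one
    have hA := sum_A z 0 s
    rw [← hs] at hA
    have hf2 : f = s + 1 ∨ f = s + 2 := by
      by_cases hcl : CL r Ind E
      · right
        have hnb : nbs r Ind E = ∅ := by
          rw [Finset.eq_empty_iff_forall_notMem]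
          intro D hD
          rw [mem_nbs] at hD
          obtain ⟨e, he⟩ : ∃ e ∈ E, e ∉ D := by
            by_contra h0
            push Not at h0
            have := Finset.card_le_card (show E ⊆ D from h0)
            omega
          obtain ⟨B, hB, hBc, hBi⟩ := hcl e he.1
          have h1 : (E.erase e).card = r := by
            rw [Finset.card_erase_of_mem he.1, hN]; omega
          have h2 : B = E.erase e := Finset.eq_of_subset_of_card_le hB (by omega)
          have h3 : D ⊆ E.erase e := Finset.subset_erase.2 ⟨hD.1, he.2⟩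
          have h4 : D = E.erase e := Finset.eq_of_subset_of_card_le h3 (by omega)
          rw [h2, ← h4] at hBi
          exact hD.2.2 hBi
        rw [hnb, Finset.card_empty, hN, hs] at htop
        have : (1 + (s + 1)).choose (s + 1) = s + 2 := by
          rw [show 1 + (s + 1) = (s + 1) + 1 by ring, Nat.choose_succ_self_right]
        omega
      · left
        obtain ⟨h1, _⟩ := hcoloop hcl
        rw [h1, hN, hs, show 1 + (s + 1) - 1 = s + 1 by omega, Nat.choose_succ_self_right]
    have hbr : (1 - z) * (∑ i ∈ range r, z ^ i + ((f : ℂ) - (s + 1)) * z ^ r) = 0 := by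
      have e1 : (0 + 1 + s).choose s = s + 1 := by
        rw [show 0 + 1 + s = s + 1 by ring, Nat.choose_succ_self_right]
      have e2 : ∑ i ∈ range r, ((0 + i).choose i : ℂ) * z ^ i = ∑ i ∈ range r, z ^ i := by
        refine Finset.sum_congr rfl fun i _ => ?_
        simp
      have e3 : (∑ i ∈ range r, ((0 + 1 + i).choose i : ℂ) * z ^ i) =
          ∑ i ∈ range r, ((1 + i).choose i : ℂ) * z ^ i := by
        simp only [zero_add]
      rw [e1, e2, e3] at hA
      rw [← hz]
      push_cast at hA
      linear_combination (-(1 - z)) * hA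
    rcases mul_eq_zero.1 hbr with h0 | h0
    · exact hz1 h0
    rcases hf2 with h1 | h1
    · rw [h1] at h0
      push_cast at h0
      rw [sub_self, zero_mul, add_zero, hs] at h0
      have := geom_root z s h0
      linarith
    · rw [h1] at h0
      push_cast at h0
      have h2 : ∑ i ∈ range (r + 1), z ^ i = 0 := by
        rw [Finset.sum_range_succ, ← h0]
        ring
      have := geom_root z r h2
      linarith
  · -- the main case
    obtain ⟨n, rfl⟩ : ∃ n, N = n + 2 := ⟨N - 2, by omega⟩
    have hA := sum_A z (n + 1) s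
    rw [← hs] at hA
    set c := (n + 1 + r).choose s with hc
    have hAr : A n (r - 1) = (r + n).choose s := by
      unfold A
      rw [hs]
      congr 1
      omega
    -- `H = f - c`
    have hH : ∃ H, f = H + c ∧ (H = 0 ∨ (n + 1) * A n (r - 1) ≤ (n + 2) * H) := by
      by_cases hcl : CL r Ind E
      · have hb := hsys.bound (by omega) n E (Finset.Subset.refl _) hcl (by omega)
        set a := (r + n).choose r with ha
        rw [show r - 1 = s by omega] at hb
        set b := (r + n).choose s with hbb
        have p1 : (r + n + 1).choose r = a + b := by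
          rw [ha, hbb, hs, Nat.choose_succ_succ, add_comm]
        have p2 : (n + 2 + r).choose r = (r + n + 1).choose r + c := by
          rw [hc, hs, show n + 2 + (s + 1) = (n + 1 + (s + 1)) + 1 by ring, Nat.choose_succ_succ,
            add_comm]
          congr 2
          ring
        rw [hN, p2, p1] at htop
        have hnb : (nbs r Ind E).card ≤ a + b := by
          have : (n + 2) * (nbs r Ind E).card ≤ (n + 2) * (a + b) := by nlinarith
          exact Nat.le_of_mul_le_mul_left this (by omega)
        refine ⟨a + b - (nbs r Ind E).card, by omega, Or.inr ?_⟩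
        rw [hAr]
        obtain ⟨d, hd⟩ : ∃ d, a + b = d + (nbs r Ind E).card := ⟨a + b - (nbs r Ind E).card, by omega⟩
        rw [hd, Nat.add_sub_cancel]
        have hd' : (n + 2) * (a + b) = (n + 2) * d + (n + 2) * (nbs r Ind E).card := by
          rw [hd]; ring
        nlinarith
      · obtain ⟨h1, _⟩ := hcoloop hcl
        refine ⟨0, ?_, Or.inl rfl⟩
        rw [h1, hN, hc, zero_add]
        congr 1
        omega
    obtain ⟨H, hfH, hHc⟩ := hH
    have hroot := roots n r H (by omega) hHc z hcon
    apply hroot
    have hbr : (1 - z) ^ (n + 2) * (∑ i ∈ range r, (A n i : ℂ) * z ^ i + H * z ^ r) = 0 := by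
      have e1 : ∑ i ∈ range r, (A n i : ℂ) * z ^ i = ∑ i ∈ range r, ((n + 1 + i).choose i : ℂ) * z ^ i :=
        rfl
      have e2 : (n + 1 + 1 + s).choose s = c := by
        rw [hc]
        congr 1
        omega
      have e3 : (∑ i ∈ range r, ((n + 1 + 1 + i).choose i : ℂ) * z ^ i) =
          ∑ i ∈ range r, ((n + 2 + i).choose i : ℂ) * z ^ i := rfl
      rw [e2, e3] at hA
      rw [e1, ← hz, hfH, pow_succ (1 - z) (n + 2)]
      push_cast
      linear_combination (-(1 - z) ^ (n + 2)) * hA
    rcases mul_eq_zero.1 hbr with h0 | h0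
    · exact absurd h0 (pow_ne_zero _ hz1)
    · exact h0

end Pool.Agent.Results.MP_1ae31d_co.PavingUnitDisk
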